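import Mathlib

set_option autoImplicit false

namespace Pool.Agent.Results.MP_71c87b_al.Variety

/-- Numerical semigroups. -/
def IsNum (S : AddSubmonoid ℕ) : Prop := {x : ℕ | x ∉ S}.Finite

/-- The Frobenius number of a numerical semigroup `S ≠ ℕ`. -/
noncomputable def frob (S : AddSubmonoid ℕ) : ℕ := sSup {x : ℕ | x ∉ S}

/-- The minimal generators: nonzero elements which are not a sum of two nonzero elements. -/
def atoms (S : AddSubmonoid ℕ) : Set ℕ :=
  {x | x ∈ S ∧ x ≠ 0 ∧ ∀ y ∈ S, ∀ z ∈ S, x = y + z → y = 0 ∨ z = 0}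

/-- The factorisation map `(a_1, …, a_e) ↦ ∑ a_i n_i`. -/
def phi {e : ℕ} (n : Fin e → ℕ) (x : Fin e → ℕ) : ℕ := ∑ i, x i * n i

/-- `σ` generates the kernel congruence of the factorisation map. -/
def IsPres {e : ℕ} (n : Fin e → ℕ) (σ : Set ((Fin e → ℕ) × (Fin e → ℕ))) : Prop :=
  ∀ x y, addConGen (fun u v => (u, v) ∈ σ) x y ↔ phi n x = phi n y

/-- Complete intersections: for the minimal generators `n_1, …, n_e` there is a presentation of
least cardinality, and it has exactly `e - 1` elements. -/
def IsCI (S : AddSubmonoid ℕ) : Prop :=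
  IsNum S ∧ ∃ (e : ℕ) (n : Fin e → ℕ), Function.Injective n ∧ Set.range n = atoms S ∧
    ∃ σ, IsPres n σ ∧ (∀ σ', IsPres n σ' → σ.encard ≤ σ'.encard) ∧ σ.encard + 1 = e

/-- Frobenius varieties. -/
def IsVar (V : Set (AddSubmonoid ℕ)) : Prop :=
  V.Nonempty ∧ (∀ S ∈ V, IsNum S) ∧ (∀ S ∈ V, ∀ T ∈ V, S ⊓ T ∈ V) ∧
    ∀ S ∈ V, S ≠ ⊤ → ∃ T ∈ V, (T : Set ℕ) = insert (frob S) (S : Set ℕ)

/-- The intersection of all Frobenius varieties that contain the family `A`. -/
def Gen (A : Set (AddSubmonoid ℕ)) : Set (AddSubmonoid ℕ) :=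
  {T | ∀ V, IsVar V → A ⊆ V → T ∈ V}

theorem gaps_nonempty {S : AddSubmonoid ℕ} (h : S ≠ ⊤) : {x : ℕ | x ∉ S}.Nonempty := by
  by_contra hc
  apply h
  rw [Set.not_nonempty_iff_eq_empty] at hc
  ext x
  simp only [AddSubmonoid.mem_top, iff_true]
  by_contra hx
  have : x ∈ {x : ℕ | x ∉ S} := hx
  rw [hc] at this
  exact this

theorem frob_notMem {S : AddSubmonoid ℕ} (hS : IsNum S) (h : S ≠ ⊤) : frob S ∉ S :=
  Nat.sSup_mem (gaps_nonempty h) hS.bddAbove

theorem le_frob {S : AddSubmonoid ℕ} (hS : IsNum S) {x : ℕ} (hx : x ∉ S) : x ≤ frob S :=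
  le_csSup hS.bddAbove hx

theorem frob_eq {S : AddSubmonoid ℕ} {f : ℕ} (h1 : f ∉ S) (h2 : ∀ x, f < x → x ∈ S) :
    frob S = f := by
  apply le_antisymm
  · apply csSup_le ⟨f, h1⟩
    intro x hx
    by_contra hc
    exact hx (h2 x (by omega))
  · apply le_csSup _ h1
    refine ⟨f, ?_⟩
    intro x hx
    by_contra hc
    exact hx (h2 x (by omega))

/-- A Frobenius variety is closed under adding all numbers from `c` on. -/
theorem up {V : Set (AddSubmonoid ℕ)} (hV : IsVar V) (c : ℕ) :
    ∀ (k : ℕ) (S : AddSubmonoid ℕ), S ∈ V → {x : ℕ | x ∉ S ∧ c ≤ x}.ncard = k →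
      ∃ U ∈ V, ∀ x, x ∈ U ↔ (x ∈ S ∨ c ≤ x) := by
  intro k
  induction k with
  | zero =>
    intro S hS h0
    have hfin : {x : ℕ | x ∉ S ∧ c ≤ x}.Finite := (hV.2.1 S hS).subset (fun x hx => hx.1)
    rw [Set.ncard_eq_zero hfin] at h0
    refine ⟨S, hS, fun x => ⟨Or.inl, ?_⟩⟩
    rintro (h | h)
    · exact h
    · by_contra hx
      have : x ∈ {x : ℕ | x ∉ S ∧ c ≤ x} := ⟨hx, h⟩
      rw [h0] at this
      exact this
  | succ k ih =>
    intro S hS hk
    have hfin : {x : ℕ | x ∉ S ∧ c ≤ x}.Finite := (hV.2.1 S hS).subset (fun x hx => hx.1)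
    have hne : {x : ℕ | x ∉ S ∧ c ≤ x}.Nonempty := by
      rw [← Set.ncard_pos hfin]
      omega
    obtain ⟨g, hg, hcg⟩ := hne
    have htop : S ≠ ⊤ := by
      rintro rfl
      exact hg (AddSubmonoid.mem_top g)
    have hF := frob_notMem (hV.2.1 S hS) htop
    have hFc : c ≤ frob S := hcg.trans (le_frob (hV.2.1 S hS) hg)
    obtain ⟨T, hT, hTS⟩ := hV.2.2.2 S hS htop
    have hTm : ∀ x, x ∈ T ↔ x = frob S ∨ x ∈ S := by
      intro x
      have : x ∈ (T : Set ℕ) ↔ x ∈ insert (frob S) (S : Set ℕ) := by rw [hTS]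
      simpa using this
    have hset : {x : ℕ | x ∉ T ∧ c ≤ x} = {x : ℕ | x ∉ S ∧ c ≤ x} \ {frob S} := by
      ext x
      simp only [Set.mem_ofPred_eq, Set.mem_sdiff, Set.mem_singleton_iff, hTm]
      tauto
    have hcard : {x : ℕ | x ∉ T ∧ c ≤ x}.ncard = k := by
      have hmem : frob S ∈ {x : ℕ | x ∉ S ∧ c ≤ x} := ⟨hF, hFc⟩
      rw [hset, Set.ncard_sdiff_singleton_of_mem hmem, hk]
      rfl
    obtain ⟨U, hU, hU2⟩ := ih T hT hcard
    refine ⟨U, hU, fun x => ?_⟩
    rw [hU2, hTm]
    constructor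
    · rintro ((h | h) | h)
      · right
        omega
      · exact Or.inl h
      · exact Or.inr h
    · rintro (h | h)
      · exact Or.inl (Or.inr h)
      · exact Or.inr h

/-- The semigroups satisfying the separation criterion. -/
def Crit (A : Set (AddSubmonoid ℕ)) : Set (AddSubmonoid ℕ) :=
  {T | IsNum T ∧ ∀ g, g ∉ T → ∃ S ∈ A, (∀ x ∈ T, x < g → x ∈ S) ∧ g ∉ S}

theorem crit_isVar (A : Set (AddSubmonoid ℕ)) : IsVar (Crit A) := by
  refine ⟨⟨⊤, ?_, ?_⟩, fun S hS => hS.1, ?_, ?_⟩
  · have : {x : ℕ | x ∉ (⊤ : AddSubmonoid ℕ)} = ∅ := by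
      ext x
      simp
    unfold IsNum
    rw [this]
    exact Set.finite_empty
  · intro g hg
    exact absurd (AddSubmonoid.mem_top g) hg
  · rintro S ⟨hS, hS2⟩ T ⟨hT, hT2⟩
    constructor
    · have : {x : ℕ | x ∉ S ⊓ T} = {x : ℕ | x ∉ S} ∪ {x : ℕ | x ∉ T} := by
        ext x
        simp only [AddSubmonoid.mem_inf, Set.mem_ofPred_eq, Set.mem_union]
        tauto
      unfold IsNum
      rw [this]
      exact hS.union hT
    · intro g hg
      by_cases hgS : g ∈ S
      · have hgT : g ∉ T := fun h => hg ⟨hgS, h⟩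
        obtain ⟨U, hU, h1, h2⟩ := hT2 g hgT
        exact ⟨U, hU, fun x hx hxg => h1 x hx.2 hxg, h2⟩
      · obtain ⟨U, hU, h1, h2⟩ := hS2 g hgS
        exact ⟨U, hU, fun x hx hxg => h1 x hx.1 hxg, h2⟩
  · rintro S ⟨hS, hS2⟩ htop
    have hadd : ∀ x, frob S < x → x ∈ S := by
      intro x hx
      by_contra hc
      have := le_frob hS hc
      omega
    refine ⟨{ carrier := insert (frob S) (S : Set ℕ), add_mem' := ?_, zero_mem' := ?_ },
      ⟨?_, ?_⟩, rfl⟩
    · rintro a b (ha | ha) (hb | hb)
      · rcases Nat.eq_zero_or_pos (frob S) with h0 | h0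
        · left
          omega
        · right
          exact hadd _ (by omega)
      · rcases Nat.eq_zero_or_pos b with h0 | h0
        · left
          omega
        · right
          exact hadd _ (by omega)
      · rcases Nat.eq_zero_or_pos a with h0 | h0
        · left
          omega
        · right
          exact hadd _ (by omega)
      · right
        exact S.add_mem ha hb
    · right
      exact S.zero_mem
    · exact hS.subset (fun x hx hxS => hx (Or.inr hxS))
    · intro g hg
      have hgS : g ∉ S := fun h => hg (Or.inr h)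
      have hgF : g ≠ frob S := fun h => hg (Or.inl h)
      have hlt : g < frob S := lt_of_le_of_ne (le_frob hS hgS) hgF
      obtain ⟨U, hU, h1, h2⟩ := hS2 g hgS
      refine ⟨U, hU, ?_, h2⟩
      rintro x (hx | hx) hxg
      · omega
      · exact h1 x hx hxg

theorem subset_crit {A : Set (AddSubmonoid ℕ)} (hA : ∀ S ∈ A, IsNum S) : A ⊆ Crit A :=
  fun S hS => ⟨hA S hS, fun _ hg => ⟨S, hS, fun _ hx _ => hx, hg⟩⟩

/-- Membership criterion for the least Frobenius variety containing a family. -/
theorem criterion {A : Set (AddSubmonoid ℕ)} (hA : ∀ S ∈ A, IsNum S) : Gen A = Crit A := by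
  apply Set.Subset.antisymm
  · intro T hT
    exact hT _ (crit_isVar A) (subset_crit hA)
  · rintro T ⟨hT, hcrit⟩ V hV hAV
    choose! S hSA hST hSg using hcrit
    have hT' : {x : ℕ | x ∉ T}.Finite := hT
    have hmem : ∀ g, g ∈ hT'.toFinset ↔ g ∉ T := by
      intro g
      rw [Set.Finite.mem_toFinset]
      rfl
    -- finite intersections
    have key : ∀ G : Finset ℕ, (∀ g ∈ G, g ∉ T) →
        ∃ W ∈ V, ∀ x, x ∈ W ↔ ∀ g ∈ G, x ∈ S g ∨ g + 1 ≤ x := by
      intro G
      induction G using Finset.induction_on with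
      | empty =>
        intro _
        obtain ⟨S0, hS0⟩ := hV.1
        obtain ⟨U, hU, hU2⟩ := up hV 0 _ S0 hS0 rfl
        refine ⟨U, hU, fun x => ?_⟩
        rw [hU2]
        simp
      | insert g G hg ih =>
        intro hG
        obtain ⟨W, hW, hW2⟩ := ih (fun g' hg' => hG g' (Finset.mem_insert_of_mem hg'))
        have hgT := hG g (Finset.mem_insert_self g G)
        obtain ⟨U, hU, hU2⟩ := up hV (g + 1) _ (S g) (hAV (hSA g hgT)) rfl
        refine ⟨U ⊓ W, hV.2.2.1 U hU W hW, fun x => ?_⟩
        rw [AddSubmonoid.mem_inf, hU2, hW2]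
        simp
    obtain ⟨W, hW, hW2⟩ := key hT'.toFinset (fun g hg => (hmem g).1 hg)
    have : W = T := by
      ext x
      rw [hW2]
      constructor
      · intro h
        by_contra hx
        rcases h x ((hmem x).2 hx) with h1 | h1
        · exact hSg x hx h1
        · omega
      · intro hx g hg
        have hg' : g ∉ T := (hmem g).1 hg
        rcases lt_trichotomy x g with h1 | h1 | h1
        · exact Or.inl (hST g hg' x hx h1)
        · exact absurd (h1 ▸ hx) hg'
        · exact Or.inr h1
    rw [← this]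
    exact hW

theorem closure_atoms {T S : AddSubmonoid ℕ} (h : ∀ x ∈ atoms T, x ∈ S) : T ≤ S := by
  intro x
  induction x using Nat.strong_induction_on with
  | _ x ih =>
    intro hx
    by_cases h0 : x = 0
    · rw [h0]
      exact S.zero_mem
    by_cases hat : x ∈ atoms T
    · exact h x hat
    · have : ∃ y ∈ T, ∃ z ∈ T, x = y + z ∧ y ≠ 0 ∧ z ≠ 0 := by
        by_contra hc
        push Not at hc
        apply hat
        refine ⟨hx, h0, fun y hy z hz hxyz => ?_⟩
        by_cases hy0 : y = 0
        · exact Or.inl hy0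
        · exact Or.inr (hc y hy z hz hxyz hy0)
      obtain ⟨y, hy, z, hz, rfl, hy0, hz0⟩ := this
      exact S.add_mem (ih y (by omega) hy) (ih z (by omega) hz)

/-- Irreducible semigroups all of whose generators are below the Frobenius number. -/
theorem irreducible_mem {A : Set (AddSubmonoid ℕ)} (hA : ∀ S ∈ A, IsNum S) {T : AddSubmonoid ℕ}
    (hT : IsNum T) (htop : T ≠ ⊤) (hirr : ∀ x, x ∉ T → frob T - x ∈ T ∨ 2 * x = frob T)
    (hgen : ∀ a ∈ atoms T, a < frob T) : T ∈ Gen A ↔ T ∈ A := by
  rw [criterion hA]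
  constructor
  · rintro ⟨-, h⟩
    obtain ⟨S, hS, h1, h2⟩ := h _ (frob_notMem hT htop)
    have hle : T ≤ S := closure_atoms (fun a ha => h1 a ha.1 (hgen a ha))
    have : S = T := by
      apply le_antisymm _ hle
      intro x hx
      by_contra hxT
      have hxf := le_frob hT hxT
      rcases hirr x hxT with h3 | h3
      · apply h2
        have := S.add_mem hx (hle h3)
        rwa [Nat.add_sub_cancel' hxf] at this
      · apply h2
        have := S.add_mem hx hx
        rwa [← two_mul, h3] at this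
    rw [← this]
    exact hS
  · intro h
    exact subset_crit hA h

section Presentations

variable {e : ℕ} {n : Fin e → ℕ} {S : AddSubmonoid ℕ}

theorem phi_add (x y : Fin e → ℕ) : phi n (x + y) = phi n x + phi n y := by
  simp [phi, add_mul, Finset.sum_add_distrib]

theorem phi_zero : phi n 0 = 0 := by
  simp [phi]

theorem phi_single (i : Fin e) (k : ℕ) : phi n (Pi.single i k) = k * n i := by
  unfold phi
  rw [Finset.sum_eq_single i]
  · simp
  · intro j _ hj
    simp [hj]
  · intro h
    exact absurd (Finset.mem_univ i) h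

theorem phi_mem (hn : ∀ i, n i ∈ S) (x : Fin e → ℕ) : phi n x ∈ S := by
  unfold phi
  apply AddSubmonoid.sum_mem
  intro i _
  have := S.nsmul_mem (hn i) (x i)
  simpa using this

theorem phi_eq_zero (hn : ∀ i, 0 < n i) {x : Fin e → ℕ} (h : phi n x = 0) : x = 0 := by
  unfold phi at h
  rw [Finset.sum_eq_zero_iff] at h
  ext i
  have := h i (Finset.mem_univ i)
  rcases Nat.mul_eq_zero.1 this with h1 | h1
  · exact h1
  · have := hn i
    omega

theorem peel {x : Fin e → ℕ} {i : Fin e} (h : x i ≠ 0) :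
    ∃ y : Fin e → ℕ, x = Pi.single i (1 : ℕ) + y := by
  refine ⟨fun j => if j = i then x j - 1 else x j, ?_⟩
  ext j
  by_cases hj : j = i
  · subst hj
    simp
    omega
  · simp [hj]

theorem exists_ne_zero {x : Fin e → ℕ} (h : x ≠ 0) : ∃ i, x i ≠ 0 := by
  by_contra hc
  push Not at hc
  exact h (funext hc)

/-- The kernel congruence. -/
def kerCon (n : Fin e → ℕ) : AddCon (Fin e → ℕ) where
  r x y := phi n x = phi n y
  iseqv := ⟨fun _ => rfl, fun h => h.symm, fun h h' => h.trans h'⟩
  add' := by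
    intro a b c d h1 h2
    change phi n a = phi n b at h1
    change phi n c = phi n d at h2
    rw [phi_add, phi_add, h1, h2]

theorem iso (hn : ∀ i, 0 < n i) {σ : Set ((Fin e → ℕ) × (Fin e → ℕ))} (hσ : IsPres n σ)
    {z y0 : Fin e → ℕ}
    (hz : ∀ y, phi n y = phi n z → y ≠ z → ∀ i, z i = 0 ∨ y i = 0)
    (hy0 : phi n y0 = phi n z) (hne : y0 ≠ z) : ∃ p ∈ σ, phi n p.1 = phi n z := by
  by_contra hc
  push Not at hc
  have hdis : ∀ x x' : Fin e → ℕ, x + x' = z → x' ≠ 0 → ∀ y, phi n y = phi n x → y = x := by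
    intro x x' hxx hx' y hy
    by_contra hyx
    have h1 : phi n (y + x') = phi n z := by
      rw [← hxx, phi_add, phi_add, hy]
    have h2 : y + x' ≠ z := by
      intro h
      rw [← hxx] at h
      exact hyx (add_right_cancel h)
    obtain ⟨i, hi⟩ := exists_ne_zero hx'
    rcases hz _ h1 h2 i with h3 | h3
    · rw [← hxx] at h3
      simp only [Pi.add_apply] at h3
      omega
    · simp only [Pi.add_apply] at h3
      omega
  let R : AddCon (Fin e → ℕ) :=
    { r := fun x y => phi n x = phi n y ∧ (x = z ↔ y = z)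
      iseqv := ⟨fun _ => ⟨rfl, Iff.rfl⟩, fun h => ⟨h.1.symm, h.2.symm⟩,
        fun h h' => ⟨h.1.trans h'.1, h.2.trans h'.2⟩⟩
      add' := by
        intro a b c d h1 h2
        obtain ⟨h1, h1'⟩ : phi n a = phi n b ∧ (a = z ↔ b = z) := h1
        obtain ⟨h2, h2'⟩ : phi n c = phi n d ∧ (c = z ↔ d = z) := h2
        have main : ∀ a b c d : Fin e → ℕ, phi n a = phi n b → (a = z ↔ b = z) →
            phi n c = phi n d → (c = z ↔ d = z) → a + c = z → b + d = z := by
          intro a b c d h1 h1' h2 h2' h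
          by_cases hc0 : c = 0
          · subst hc0
            rw [phi_zero] at h2
            have hd := phi_eq_zero hn h2.symm
            subst hd
            rw [add_zero] at h ⊢
            exact h1'.1 h
          by_cases ha0 : a = 0
          · subst ha0
            rw [phi_zero] at h1
            have hb := phi_eq_zero hn h1.symm
            subst hb
            rw [zero_add] at h ⊢
            exact h2'.1 h
          have e1 := hdis a c h hc0 b h1.symm
          have e2 := hdis c a (by rw [add_comm]; exact h) ha0 d h2.symm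
          rw [e1, e2]
          exact h
        change phi n (a + c) = phi n (b + d) ∧ (a + c = z ↔ b + d = z)
        refine ⟨by rw [phi_add, phi_add, h1, h2], main a b c d h1 h1' h2 h2', ?_⟩
        exact main b a d c h1.symm h1'.symm h2.symm h2'.symm }
  have hle : addConGen (fun u v => (u, v) ∈ σ) ≤ R := by
    apply AddCon.addConGen_le.2
    intro x y hxy
    change phi n x = phi n y ∧ (x = z ↔ y = z)
    have h1 : phi n x = phi n y := (hσ x y).1 (AddConGen.Rel.of _ _ hxy)
    refine ⟨h1, ?_, ?_⟩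
    · intro hxz
      exact absurd (by rw [hxz]) (hc _ hxy)
    · intro hyz
      refine absurd ?_ (hc _ hxy)
      change phi n x = phi n z
      rw [h1, hyz]
  have h1 : addConGen (fun u v => (u, v) ∈ σ) z y0 := (hσ z y0).2 hy0.symm
  have h2 : phi n z = phi n y0 ∧ (z = z ↔ y0 = z) := hle h1
  exact hne (h2.2.1 rfl)

theorem atom_fact (hinj : Function.Injective n) (hr : Set.range n = atoms S) {j : Fin e}
    {y : Fin e → ℕ} (h : phi n y = n j) : y = Pi.single j 1 := by
  have hat : ∀ i, n i ∈ atoms S := fun i => hr ▸ Set.mem_range_self i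
  have hpos : ∀ i, 0 < n i := fun i => Nat.pos_of_ne_zero (hat i).2.1
  have hy0 : y ≠ 0 := by
    rintro rfl
    rw [phi_zero] at h
    have := hpos j
    omega
  obtain ⟨k, hk⟩ := exists_ne_zero hy0
  obtain ⟨y', rfl⟩ := peel hk
  rw [phi_add, phi_single, one_mul] at h
  have h2 := (hat j).2.2 (n k) (hat k).1 (phi n y') (phi_mem (fun i => (hat i).1) y') h.symm
  have h3 : phi n y' = 0 := by
    rcases h2 with h2 | h2
    · have := hpos k
      omega
    · exact h2
  have h4 := phi_eq_zero hpos h3
  subst h4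
  rw [h3, add_zero] at h
  rw [hinj h, add_zero]

theorem pair_deg (hinj : Function.Injective n) (hr : Set.range n = atoms S)
    {σ : Set ((Fin e → ℕ) × (Fin e → ℕ))} (hσ : IsPres n σ) (i j : Fin e) {y0 : Fin e → ℕ}
    (h1 : phi n y0 = n i + n j) (h2 : y0 ≠ Pi.single i 1 + Pi.single j 1) :
    ∃ p ∈ σ, phi n p.1 = n i + n j := by
  have hat : ∀ i, n i ∈ atoms S := fun i => hr ▸ Set.mem_range_self i
  have hpos : ∀ i, 0 < n i := fun i => Nat.pos_of_ne_zero (hat i).2.1
  have hz : phi n (Pi.single i 1 + Pi.single j 1) = n i + n j := by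
    rw [phi_add, phi_single, phi_single, one_mul, one_mul]
  rw [← hz]
  apply iso hpos hσ (y0 := y0) _ (by rw [h1, hz]) h2
  intro y hy hne k
  by_contra hc
  push Not at hc
  obtain ⟨hzk, hyk⟩ := hc
  obtain ⟨y', rfl⟩ := peel hyk
  rw [hz, phi_add, phi_single, one_mul] at hy
  have hk : k = i ∨ k = j := by
    by_contra hk
    push Not at hk
    apply hzk
    simp [hk.1, hk.2]
  rcases hk with rfl | rfl
  · have := atom_fact hinj hr (j := j) (y := y') (by omega)
    rw [this] at hne
    exact hne rfl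
  · have := atom_fact hinj hr (j := i) (y := y') (by omega)
    rw [this, add_comm] at hne
    exact hne rfl

theorem card_le {σ : Set ((Fin e → ℕ) × (Fin e → ℕ))} (D : Finset ℕ)
    (hD : ∀ d ∈ D, ∃ p ∈ σ, phi n p.1 = d) : (D.card : ℕ∞) ≤ σ.encard := by
  have h1 : (D : Set ℕ) ⊆ (fun p : (Fin e → ℕ) × (Fin e → ℕ) => phi n p.1) '' σ := by
    intro d hd
    obtain ⟨p, hp, hpd⟩ := hD d hd
    exact ⟨p, hp, hpd⟩
  calc (D.card : ℕ∞) = (D : Set ℕ).encard := (Set.encard_coe_eq_coe_finsetCard D).symm
    _ ≤ _ := Set.encard_le_encard h1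
    _ ≤ _ := Set.encard_image_le _ _

theorem gen_ker {σ : Set ((Fin e → ℕ) × (Fin e → ℕ))} (h : ∀ p ∈ σ, phi n p.1 = phi n p.2)
    {x y : Fin e → ℕ} (hxy : addConGen (fun u v => (u, v) ∈ σ) x y) : phi n x = phi n y := by
  have hle : addConGen (fun u v => (u, v) ∈ σ) ≤ kerCon n :=
    AddCon.addConGen_le.2 (fun u v huv => h (u, v) huv)
  exact hle hxy

theorem pres_nonempty {σ : Set ((Fin e → ℕ) × (Fin e → ℕ))} (hσ : IsPres n σ)
    {x y : Fin e → ℕ} (hxy : phi n x = phi n y) (hne : x ≠ y) : σ.Nonempty := by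
  by_contra hc
  rw [Set.not_nonempty_iff_eq_empty] at hc
  subst hc
  let c : AddCon (Fin e → ℕ) :=
    { r := fun u v => u = v
      iseqv := eq_equivalence
      add' := by
        intro a b c d h1 h2
        rw [show a = b from h1, show c = d from h2] }
  have h1 := (hσ x y).2 hxy
  have hle : addConGen (fun u v => (u, v) ∈ (∅ : Set ((Fin e → ℕ) × (Fin e → ℕ)))) ≤ c :=
    AddCon.addConGen_le.2 (fun u v huv => absurd huv (Set.notMem_empty _))
  exact hne (hle h1)

end Presentations

section Two

variable {a b : ℕ}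

theorem mem_two {x : ℕ} :
    x ∈ AddSubmonoid.closure ({a, b} : Set ℕ) ↔ ∃ i j : ℕ, i * a + j * b = x := by
  rw [AddSubmonoid.mem_closure_pair]
  simp

theorem num_two (ha : 2 ≤ a) (hb : 2 ≤ b) (hab : Nat.Coprime a b) :
    IsNum (AddSubmonoid.closure ({a, b} : Set ℕ)) := by
  have h := frobeniusNumber_pair hab (by omega) (by omega)
  apply (Set.finite_Iic (a * b - a - b)).subset
  intro x hx
  by_contra hc
  rw [Set.mem_Iic, not_le] at hc
  have := (frobeniusNumber_iff.1 h).2 x hc
  exact hx this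

theorem atoms_two (ha : 2 ≤ a) (hb : 2 ≤ b) (hab : Nat.Coprime a b) :
    atoms (AddSubmonoid.closure ({a, b} : Set ℕ)) = {a, b} := by
  have hma : a ∈ AddSubmonoid.closure ({a, b} : Set ℕ) := mem_two.2 ⟨1, 0, by ring⟩
  have hmb : b ∈ AddSubmonoid.closure ({a, b} : Set ℕ) := mem_two.2 ⟨0, 1, by ring⟩
  ext x
  constructor
  · rintro ⟨hx, hx0, hx2⟩
    obtain ⟨i, j, rfl⟩ := mem_two.1 hx
    rcases Nat.eq_zero_or_pos i with hi | hi
    · subst hi
      rcases Nat.eq_zero_or_pos j with hj | hj
      · subst hj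
        simp at hx0
      · obtain ⟨j', rfl⟩ : ∃ j', j = j' + 1 := ⟨j - 1, by omega⟩
        have := hx2 b hmb (j' * b) (mem_two.2 ⟨0, j', by ring⟩) (by ring)
        right
        rcases this with h | h
        · omega
        · rw [Set.mem_singleton_iff, zero_mul, zero_add, add_mul, h]
          ring
    · obtain ⟨i', rfl⟩ : ∃ i', i = i' + 1 := ⟨i - 1, by omega⟩
      have := hx2 a hma (i' * a + j * b) (mem_two.2 ⟨i', j, by ring⟩) (by ring)
      left
      rcases this with h | h
      · omega
      · have : (i' + 1) * a + j * b = a + (i' * a + j * b) := by ring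
        rw [this, h]
        rfl
  · have aux : ∀ a b : ℕ, 2 ≤ a → 2 ≤ b → Nat.Coprime a b → ∀ i j i' j' : ℕ,
        a = (i * a + j * b) + (i' * a + j' * b) → i * a + j * b = 0 ∨ i' * a + j' * b = 0 := by
      intro a b ha hb hab i j i' j' h
      rcases Nat.eq_zero_or_pos (i + i') with h0 | h0
      · exfalso
        have hi : i = 0 := by omega
        have hi' : i' = 0 := by omega
        subst hi
        subst hi'
        have hdvd : b ∣ a := ⟨j + j', by rw [h]; ring⟩
        have h1 := Nat.eq_one_of_dvd_coprimes hab hdvd dvd_rfl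
        omega
      · have h1 : (j + j') * b = 0 ∧ i + i' = 1 := by
          have h2 : a = (i + i') * a + (j + j') * b := by
            rw [add_mul, add_mul]
            omega
          obtain ⟨s, hs⟩ : ∃ s, i + i' = s + 1 := ⟨i + i' - 1, by omega⟩
          rw [hs, add_mul, one_mul] at h2
          have h3 : s * a = 0 := by omega
          have h4 : s = 0 := by
            rcases Nat.mul_eq_zero.1 h3 with h | h
            · exact h
            · omega
          constructor
          · omega
          · omega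
        have hj : j = 0 ∧ j' = 0 := by
          rcases Nat.mul_eq_zero.1 h1.1 with h | h <;> omega
        obtain ⟨rfl, rfl⟩ := hj
        rcases Nat.eq_zero_or_pos i with hi | hi
        · left
          rw [hi]
          ring
        · right
          have : i' = 0 := by omega
          rw [this]
          ring
    rintro (rfl | rfl)
    · refine ⟨hma, by omega, ?_⟩
      intro y hy z hz hyz
      obtain ⟨i, j, rfl⟩ := mem_two.1 hy
      obtain ⟨i', j', rfl⟩ := mem_two.1 hz
      exact aux _ _ ha hb hab i j i' j' hyz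
    · refine ⟨hmb, by omega, ?_⟩
      intro y hy z hz hyz
      obtain ⟨i, j, rfl⟩ := mem_two.1 hy
      obtain ⟨i', j', rfl⟩ := mem_two.1 hz
      have := aux _ _ hb ha hab.symm j i j' i' (by omega)
      omega

theorem phi_two (x : Fin 2 → ℕ) : phi ![a, b] x = x 0 * a + x 1 * b := by
  simp [phi, Fin.sum_univ_two]

theorem ci_two (ha : 2 ≤ a) (hb : 2 ≤ b) (hab : Nat.Coprime a b) :
    IsCI (AddSubmonoid.closure ({a, b} : Set ℕ)) := by
  have hne : a ≠ b := by
    rintro rfl
    rw [Nat.coprime_self] at hab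
    omega
  have hphi : phi ![a, b] ![b, 0] = phi ![a, b] ![0, a] := by
    rw [phi_two, phi_two]
    simp [mul_comm]
  refine ⟨num_two ha hb hab, 2, ![a, b], ?_, ?_, {(![b, 0], ![0, a])}, ?_, ?_, ?_⟩
  · intro i j hij
    fin_cases i <;> fin_cases j <;> simp_all
  · rw [atoms_two ha hb hab]
    ext x
    simp only [Set.mem_range, Fin.exists_fin_two, Matrix.cons_val_zero, Matrix.cons_val_one,
      Set.mem_insert_iff, Set.mem_singleton_iff]
    tauto
  · intro x y
    constructor
    · intro h
      apply gen_ker _ h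
      rintro p hp
      rw [Set.mem_singleton_iff] at hp
      subst hp
      exact hphi
    · set R := addConGen (fun u v : Fin 2 → ℕ => (u, v) ∈ ({(![b, 0], ![0, a])} :
        Set ((Fin 2 → ℕ) × (Fin 2 → ℕ)))) with hR
      have base : R ![b, 0] ![0, a] := AddConGen.Rel.of _ _ rfl
      have mult : ∀ t : ℕ, R ![b * t, 0] ![0, a * t] := by
        intro t
        induction t with
        | zero => simpa using R.refl _
        | succ t ih =>
          have := R.add ih base
          have e1 : (![b * t, 0] + ![b, 0] : Fin 2 → ℕ) = ![b * (t + 1), 0] := by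
            ext i
            fin_cases i <;> simp [mul_add]
          have e2 : (![0, a * t] + ![0, a] : Fin 2 → ℕ) = ![0, a * (t + 1)] := by
            ext i
            fin_cases i <;> simp [mul_add]
          rwa [e1, e2] at this
      have main : ∀ x y : Fin 2 → ℕ, y 0 ≤ x 0 → phi ![a, b] x = phi ![a, b] y → R x y := by
        intro x y hxy h
        rw [phi_two, phi_two] at h
        obtain ⟨u, hu⟩ := Nat.exists_eq_add_of_le hxy
        have hle : x 1 ≤ y 1 := by
          apply Nat.le_of_mul_le_mul_right (c := b) _ (by omega)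
          rw [hu, add_mul] at h
          have := Nat.zero_le (u * a)
          omega
        obtain ⟨v, hv⟩ := Nat.exists_eq_add_of_le hle
        have huv : u * a = v * b := by
          rw [hu, hv, add_mul, add_mul] at h
          omega
        have hdvd : b ∣ u := by
          apply (Nat.Coprime.dvd_of_dvd_mul_right hab.symm)
          exact ⟨v, by rw [huv]; ring⟩
        obtain ⟨t, rfl⟩ := hdvd
        have hv2 : v = a * t := by
          apply Nat.eq_of_mul_eq_mul_right (show 0 < b by omega)
          rw [← huv]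
          ring
        have e1 : x = ![y 0, x 1] + ![b * t, 0] := by
          ext i
          fin_cases i <;> simp [hu]
        have e2 : y = ![y 0, x 1] + ![0, a * t] := by
          ext i
          fin_cases i <;> simp [hv, hv2]
        have h3 := R.add (R.refl ![y 0, x 1]) (mult t)
        rw [← e1, ← e2] at h3
        exact h3
      intro h
      rcases le_total (y 0) (x 0) with h1 | h1
      · exact main x y h1 h
      · exact R.symm (main y x h1 h.symm)
  · intro σ' hσ'
    rw [Set.encard_singleton, Set.one_le_encard_iff_nonempty]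
    apply pres_nonempty hσ' hphi
    intro h
    have := congrFun h 0
    simp at this
    omega
  · rw [Set.encard_singleton]
    rfl

end Two

section Three

/-- The semigroup generated by `4, w, c` for `w ≡ 2 (mod 4)`, `c` odd and `w < 2 c`. -/
def S3 (w c : ℕ) (hw : w % 4 = 2) (hc : c % 2 = 1) (hwc : w < 2 * c) : AddSubmonoid ℕ where
  carrier := {x | x % 4 = 0 ∨ (x % 4 = 2 ∧ w ≤ x) ∨ (x % 4 = c % 4 ∧ c ≤ x) ∨
    (x % 4 = (c + 2) % 4 ∧ w + c ≤ x)}
  zero_mem' := Or.inl rfl
  add_mem' := by
    intro a b ha hb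
    rw [Set.mem_ofPred_eq] at *
    omega

variable {w c : ℕ} (hw : w % 4 = 2) (hc : c % 2 = 1) (hwc : w < 2 * c)

theorem mem_S3 {x : ℕ} : x ∈ S3 w c hw hc hwc ↔ x % 4 = 0 ∨ (x % 4 = 2 ∧ w ≤ x) ∨
    (x % 4 = c % 4 ∧ c ≤ x) ∨ (x % 4 = (c + 2) % 4 ∧ w + c ≤ x) := Iff.rfl

theorem atoms_S3 (hw6 : 6 ≤ w) : atoms (S3 w c hw hc hwc) = {4, w, c} := by
  ext x
  constructor
  · rintro ⟨hx, hx0, hx2⟩
    rcases (mem_S3 hw hc hwc).1 hx with h | ⟨h, h'⟩ | ⟨h, h'⟩ | ⟨h, h'⟩
    · have := hx2 4 (Or.inl rfl) (x - 4) (Or.inl (by omega)) (by omega)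
      left
      omega
    · by_cases hxw : x = w
      · exact Or.inr (Or.inl hxw)
      · have := hx2 4 (Or.inl rfl) (x - 4) (Or.inr (Or.inl ⟨by omega, by omega⟩)) (by omega)
        omega
    · by_cases hxw : x = c
      · exact Or.inr (Or.inr hxw)
      · have := hx2 4 (Or.inl rfl) (x - 4) (Or.inr (Or.inr (Or.inl ⟨by omega, by omega⟩)))
          (by omega)
        omega
    · have := hx2 w (Or.inr (Or.inl ⟨hw, le_rfl⟩)) (x - w)
        (Or.inr (Or.inr (Or.inl ⟨by omega, by omega⟩))) (by omega)
      omega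
  · intro hx
    have hx' : x = 4 ∨ x = w ∨ x = c := hx
    refine ⟨?_, by omega, ?_⟩
    · rw [mem_S3]
      omega
    · intro y hy z hz hyz
      rw [mem_S3] at hy hz
      omega

theorem phi_three {p q r : ℕ} (x : Fin 3 → ℕ) :
    phi ![p, q, r] x = x 0 * p + x 1 * q + x 2 * r := by
  simp [phi, Fin.sum_univ_three]

theorem ci_three (hw6 : 6 ≤ w) : IsCI (S3 w c hw hc hwc) := by
  obtain ⟨k, hk⟩ : ∃ k, 2 * c = w + 4 * k := ⟨(2 * c - w) / 4, by omega⟩
  obtain ⟨h, hh⟩ : ∃ h, 2 * w = 4 * h := ⟨w / 2, by omega⟩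
  have hinj : Function.Injective ![4, w, c] := by
    intro i j hij
    fin_cases i <;> fin_cases j <;> simp at hij ⊢ <;> omega
  have hrange : Set.range ![4, w, c] = atoms (S3 w c hw hc hwc) := by
    rw [atoms_S3 hw hc hwc hw6]
    ext x
    constructor
    · rintro ⟨i, rfl⟩
      fin_cases i <;> simp
    · rintro (rfl | rfl | rfl)
      · exact ⟨0, rfl⟩
      · exact ⟨1, rfl⟩
      · exact ⟨2, rfl⟩
  have hne : ((![0, 2, 0], ![h, 0, 0]) : (Fin 3 → ℕ) × (Fin 3 → ℕ)) ≠
      (![0, 0, 2], ![k, 1, 0]) := by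
    intro hcon
    have := congrFun (congrArg Prod.fst hcon) 1
    simp at this
  refine ⟨?_, 3, ![4, w, c], hinj, hrange,
    {(![0, 2, 0], ![h, 0, 0]), (![0, 0, 2], ![k, 1, 0])}, ?_, ?_, ?_⟩
  · apply (Set.finite_Iic (w + c)).subset
    intro x hx
    by_contra hx2
    rw [Set.mem_Iic, not_le] at hx2
    apply hx
    rw [mem_S3]
    omega
  · have hker : ∀ p ∈ ({(![0, 2, 0], ![h, 0, 0]), (![0, 0, 2], ![k, 1, 0])} :
        Set ((Fin 3 → ℕ) × (Fin 3 → ℕ))), phi ![4, w, c] p.1 = phi ![4, w, c] p.2 := by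
      rintro p (rfl | rfl)
      · rw [phi_three, phi_three]
        simp
        omega
      · rw [phi_three, phi_three]
        simp
        omega
    intro x y
    constructor
    · intro hxy
      exact gen_ker hker hxy
    · intro hxy
      set R := addConGen (fun u v : Fin 3 → ℕ => (u, v) ∈
        ({(![0, 2, 0], ![h, 0, 0]), (![0, 0, 2], ![k, 1, 0])} :
        Set ((Fin 3 → ℕ) × (Fin 3 → ℕ)))) with hR
      have base1 : R ![0, 2, 0] ![h, 0, 0] := AddConGen.Rel.of _ _ (Or.inl rfl)
      have base2 : R ![0, 0, 2] ![k, 1, 0] := AddConGen.Rel.of _ _ (Or.inr rfl)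
      have red : ∀ m i j l : ℕ, j + 2 * l = m →
          ∃ i' j' l', j' ≤ 1 ∧ l' ≤ 1 ∧ R ![i, j, l] ![i', j', l'] := by
        intro m
        induction m using Nat.strong_induction_on with
        | _ m ih =>
          intro i j l hm
          by_cases hl : 2 ≤ l
          · obtain ⟨l', rfl⟩ := Nat.exists_eq_add_of_le' hl
            have h1 := R.add (R.refl ![i, j, l']) base2
            have e1 : (![i, j, l'] + ![0, 0, 2] : Fin 3 → ℕ) = ![i, j, l' + 2] := by
              ext t
              fin_cases t <;> simp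
            have e2 : (![i, j, l'] + ![k, 1, 0] : Fin 3 → ℕ) = ![i + k, j + 1, l'] := by
              ext t
              fin_cases t <;> simp
            rw [e1, e2] at h1
            obtain ⟨i1, j1, l1, hj1, hl1, hR1⟩ := ih (j + 1 + 2 * l') (by omega) (i + k) (j + 1)
              l' rfl
            exact ⟨i1, j1, l1, hj1, hl1, R.trans h1 hR1⟩
          by_cases hj : 2 ≤ j
          · obtain ⟨j', rfl⟩ := Nat.exists_eq_add_of_le' hj
            have h1 := R.add (R.refl ![i, j', l]) base1
            have e1 : (![i, j', l] + ![0, 2, 0] : Fin 3 → ℕ) = ![i, j' + 2, l] := by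
              ext t
              fin_cases t <;> simp
            have e2 : (![i, j', l] + ![h, 0, 0] : Fin 3 → ℕ) = ![i + h, j', l] := by
              ext t
              fin_cases t <;> simp
            rw [e1, e2] at h1
            obtain ⟨i1, j1, l1, hj1, hl1, hR1⟩ := ih (j' + 2 * l) (by omega) (i + h) j' l rfl
            exact ⟨i1, j1, l1, hj1, hl1, R.trans h1 hR1⟩
          exact ⟨i, j, l, by omega, by omega, R.refl _⟩
      have eta : ∀ x : Fin 3 → ℕ, x = ![x 0, x 1, x 2] := by
        intro x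
        ext t
        fin_cases t <;> simp
      obtain ⟨i, j, l, hj, hl, h1⟩ := red _ (x 0) (x 1) (x 2) rfl
      obtain ⟨i', j', l', hj', hl', h2⟩ := red _ (y 0) (y 1) (y 2) rfl
      rw [← eta x] at h1
      rw [← eta y] at h2
      have h3 := gen_ker hker h1
      have h4 := gen_ker hker h2
      have h5 : phi ![4, w, c] ![i, j, l] = phi ![4, w, c] ![i', j', l'] := by
        rw [← h3, ← h4, hxy]
      rw [phi_three, phi_three] at h5
      simp only [Matrix.cons_val_zero, Matrix.cons_val_one, Matrix.cons_val] at h5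
      have h6 : i = i' ∧ j = j' ∧ l = l' := by
        interval_cases j <;> interval_cases j' <;> interval_cases l <;> interval_cases l' <;>
          omega
      obtain ⟨rfl, rfl, rfl⟩ := h6
      exact R.trans h1 (R.symm h2)
  · intro σ' hσ'
    rw [Set.encard_pair hne]
    have hD : (({2 * w, 2 * c} : Finset ℕ).card : ℕ∞) ≤ σ'.encard := by
      apply card_le
      intro d hd
      rw [Finset.mem_insert, Finset.mem_singleton] at hd
      rcases hd with rfl | rfl
      · have := pair_deg hinj hrange hσ' 1 1 (y0 := ![h, 0, 0])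
          (by rw [phi_three]; simp; omega)
          (by
            intro hcon
            have := congrFun hcon 0
            simp at this
            omega)
        simpa [two_mul] using this
      · have := pair_deg hinj hrange hσ' 2 2 (y0 := ![k, 1, 0])
          (by rw [phi_three]; simp; omega)
          (by
            intro hcon
            have := congrFun hcon 1
            simp at this)
        simpa [two_mul] using this
    rw [Finset.card_pair (by omega)] at hD
    exact hD
  · rw [Set.encard_pair hne]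
    rfl

end Three

section NotCI

variable {e : ℕ} {n : Fin e → ℕ} {S : AddSubmonoid ℕ}

/-- Three generators, even Frobenius number. -/
theorem not_ci_three {p q : ℕ} (hp : p % 4 = 1) (hq : q % 4 = 3)
    (h1 : p < q) (h2 : q < 2 * p)
    (hS : ∀ x, x ∈ S ↔ x % 4 = 0 ∨ (x % 4 = 1 ∧ p ≤ x) ∨ (x % 4 = 2 ∧ 2 * p ≤ x) ∨
      (x % 4 = 3 ∧ q ≤ x)) : ¬ IsCI S := by
  rintro ⟨-, e, n, hinj, hr, σ, hσ, -, hcard⟩
  have hat : atoms S = {4, p, q} := by
    ext x
    constructor
    · rintro ⟨hx, hx0, hx2⟩
      have h4 : 4 ∈ S := by rw [hS]; omega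
      have hpS : p ∈ S := by rw [hS]; omega
      have step4 : x - 4 ∈ S → 4 ≤ x → x = 4 := by
        intro h h'
        have := hx2 4 h4 (x - 4) h (by omega)
        omega
      have stepp : x - p ∈ S → p ≤ x → x = p := by
        intro h h'
        have := hx2 p hpS (x - p) h (by omega)
        omega
      rw [hS] at hx
      rw [hS] at step4 stepp
      have : x = 4 ∨ x = p ∨ x = q := by omega
      exact this
    · intro hx
      have hx' : x = 4 ∨ x = p ∨ x = q := hx
      refine ⟨by rw [hS]; omega, by omega, ?_⟩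
      intro y hy z hz hyz
      rw [hS] at hy hz
      omega
  have hrange : Set.range n = {4, p, q} := by rw [hr, hat]
  obtain ⟨i4, hi4⟩ : ∃ i, n i = 4 := by
    have : (4 : ℕ) ∈ Set.range n := by rw [hrange]; exact Or.inl rfl
    exact this
  obtain ⟨ip, hip⟩ : ∃ i, n i = p := by
    have : p ∈ Set.range n := by rw [hrange]; exact Or.inr (Or.inl rfl)
    exact this
  obtain ⟨iq, hiq⟩ : ∃ i, n i = q := by
    have : q ∈ Set.range n := by rw [hrange]; exact Or.inr (Or.inr rfl)
    exact this
  have n4p : i4 ≠ ip := by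
    rintro rfl
    omega
  have n4q : i4 ≠ iq := by
    rintro rfl
    omega
  have npq : ip ≠ iq := by
    rintro rfl
    omega
  have he : e ≤ 3 := by
    have h := Finset.card_le_card (s := Finset.univ.image n) (t := {4, p, q}) (by
      intro x hx
      rw [Finset.mem_image] at hx
      obtain ⟨i, -, rfl⟩ := hx
      have : n i ∈ Set.range n := Set.mem_range_self i
      rw [hrange] at this
      simpa using this)
    rw [Finset.card_image_of_injective _ hinj, Finset.card_univ, Fintype.card_fin] at h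
    exact h.trans Finset.card_le_three
  have hnat : ∀ i, n i ∈ atoms S := fun i => hr ▸ Set.mem_range_self i
  have hpos : ∀ i, 0 < n i := fun i => Nat.pos_of_ne_zero (hnat i).2.1
  have hmem : ∀ y, phi n y ∈ S := fun y => phi_mem (fun i => (hnat i).1) y
  have d1 := pair_deg hinj hr hσ ip iq (y0 := Pi.single i4 ((p + q) / 4))
    (by rw [phi_single, hi4, hip, hiq]; omega)
    (by
      intro hcon
      have := congrFun hcon ip
      simp [n4p, npq, n4p.symm, npq.symm] at this)
  have d2 := pair_deg hinj hr hσ iq iq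
    (y0 := Pi.single ip 2 + Pi.single i4 ((2 * q - 2 * p) / 4))
    (by rw [phi_add, phi_single, phi_single, hi4, hip, hiq]; omega)
    (by
      intro hcon
      have := congrFun hcon iq
      simp [n4q, npq, n4q.symm, npq.symm] at this)
  have d3 : ∃ x ∈ σ, phi n x.1 = 3 * p := by
    have hz : phi n (Pi.single ip 3) = 3 * p := by rw [phi_single, hip]
    rw [← hz]
    apply iso hpos hσ (y0 := Pi.single iq 1 + Pi.single i4 ((3 * p - q) / 4))
    · intro y hy hne i
      by_cases hi : i = ip
      · subst hi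
        right
        by_contra hyi
        obtain ⟨y', rfl⟩ := peel hyi
        rw [hz, phi_add, phi_single, one_mul, hip] at hy
        by_cases hy' : y' i = 0
        · have hy'0 : y' ≠ 0 := by
            rintro rfl
            rw [phi_zero] at hy
            omega
          obtain ⟨k, hk⟩ := exists_ne_zero hy'0
          obtain ⟨y'', rfl⟩ := peel hk
          have hki : k ≠ i := by
            rintro rfl
            exact hk hy'
          rw [phi_add, phi_single, one_mul] at hy
          have hs := hmem y''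
          have hk2 : n k = 4 ∨ n k = p ∨ n k = q := by
            have : n k ∈ Set.range n := Set.mem_range_self k
            rw [hrange] at this
            exact this
          have hkp : n k ≠ p := by
            intro h
            exact hki (hinj (h.trans hip.symm))
          rw [hS] at hs
          omega
        · obtain ⟨y'', rfl⟩ := peel hy'
          rw [phi_add, phi_single, one_mul, hip] at hy
          have := atom_fact hinj hr (j := i) (y := y'') (by omega)
          subst this
          apply hne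
          rw [← Pi.single_add, ← Pi.single_add]
          norm_num
      · left
        simp [hi]
    · rw [hz, phi_add, phi_single, phi_single, hi4, hiq]
      omega
    · intro hcon
      have := congrFun hcon iq
      simp [n4q, npq, n4q.symm, npq.symm] at this
  have hD : (({p + q, q + q, 3 * p} : Finset ℕ).card : ℕ∞) ≤ σ.encard := by
    apply card_le
    intro d hd
    rw [Finset.mem_insert, Finset.mem_insert, Finset.mem_singleton] at hd
    rcases hd with rfl | rfl | rfl
    · rw [hip, hiq] at d1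
      exact d1
    · rw [hiq] at d2
      exact d2
    · exact d3
  have hDc : ({p + q, q + q, 3 * p} : Finset ℕ).card = 3 := by
    rw [Finset.card_insert_of_notMem (by simp; omega), Finset.card_pair (by omega)]
  rw [hDc] at hD
  have h5 : ((3 : ℕ) : ℕ∞) + 1 ≤ (e : ℕ∞) := by
    rw [← hcard]
    gcongr
  have h6 : (4 : ℕ) ≤ e := by exact_mod_cast h5
  omega

/-- Three generators, even Frobenius number. -/
theorem not_ci_three' {p q : ℕ} (hp : p % 4 = 3) (hq : q % 4 = 1)
    (h1 : p < q) (h2 : q < 2 * p)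
    (hS : ∀ x, x ∈ S ↔ x % 4 = 0 ∨ (x % 4 = 3 ∧ p ≤ x) ∨ (x % 4 = 2 ∧ 2 * p ≤ x) ∨
      (x % 4 = 1 ∧ q ≤ x)) : ¬ IsCI S := by
  rintro ⟨-, e, n, hinj, hr, σ, hσ, -, hcard⟩
  have hat : atoms S = {4, p, q} := by
    ext x
    constructor
    · rintro ⟨hx, hx0, hx2⟩
      have h4 : 4 ∈ S := by rw [hS]; omega
      have hpS : p ∈ S := by rw [hS]; omega
      have step4 : x - 4 ∈ S → 4 ≤ x → x = 4 := by
        intro h h'
        have := hx2 4 h4 (x - 4) h (by omega)
        omega
      have stepp : x - p ∈ S → p ≤ x → x = p := by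
        intro h h'
        have := hx2 p hpS (x - p) h (by omega)
        omega
      rw [hS] at hx
      rw [hS] at step4 stepp
      have : x = 4 ∨ x = p ∨ x = q := by omega
      exact this
    · intro hx
      have hx' : x = 4 ∨ x = p ∨ x = q := hx
      refine ⟨by rw [hS]; omega, by omega, ?_⟩
      intro y hy z hz hyz
      rw [hS] at hy hz
      omega
  have hrange : Set.range n = {4, p, q} := by rw [hr, hat]
  obtain ⟨i4, hi4⟩ : ∃ i, n i = 4 := by
    have : (4 : ℕ) ∈ Set.range n := by rw [hrange]; exact Or.inl rfl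
    exact this
  obtain ⟨ip, hip⟩ : ∃ i, n i = p := by
    have : p ∈ Set.range n := by rw [hrange]; exact Or.inr (Or.inl rfl)
    exact this
  obtain ⟨iq, hiq⟩ : ∃ i, n i = q := by
    have : q ∈ Set.range n := by rw [hrange]; exact Or.inr (Or.inr rfl)
    exact this
  have n4p : i4 ≠ ip := by
    rintro rfl
    omega
  have n4q : i4 ≠ iq := by
    rintro rfl
    omega
  have npq : ip ≠ iq := by
    rintro rfl
    omega
  have he : e ≤ 3 := by
    have h := Finset.card_le_card (s := Finset.univ.image n) (t := {4, p, q}) (by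
      intro x hx
      rw [Finset.mem_image] at hx
      obtain ⟨i, -, rfl⟩ := hx
      have : n i ∈ Set.range n := Set.mem_range_self i
      rw [hrange] at this
      simpa using this)
    rw [Finset.card_image_of_injective _ hinj, Finset.card_univ, Fintype.card_fin] at h
    exact h.trans Finset.card_le_three
  have hnat : ∀ i, n i ∈ atoms S := fun i => hr ▸ Set.mem_range_self i
  have hpos : ∀ i, 0 < n i := fun i => Nat.pos_of_ne_zero (hnat i).2.1
  have hmem : ∀ y, phi n y ∈ S := fun y => phi_mem (fun i => (hnat i).1) y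
  have d1 := pair_deg hinj hr hσ ip iq (y0 := Pi.single i4 ((p + q) / 4))
    (by rw [phi_single, hi4, hip, hiq]; omega)
    (by
      intro hcon
      have := congrFun hcon ip
      simp [n4p, npq, n4p.symm, npq.symm] at this)
  have d2 := pair_deg hinj hr hσ iq iq
    (y0 := Pi.single ip 2 + Pi.single i4 ((2 * q - 2 * p) / 4))
    (by rw [phi_add, phi_single, phi_single, hi4, hip, hiq]; omega)
    (by
      intro hcon
      have := congrFun hcon iq
      simp [n4q, npq, n4q.symm, npq.symm] at this)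
  have d3 : ∃ x ∈ σ, phi n x.1 = 3 * p := by
    have hz : phi n (Pi.single ip 3) = 3 * p := by rw [phi_single, hip]
    rw [← hz]
    apply iso hpos hσ (y0 := Pi.single iq 1 + Pi.single i4 ((3 * p - q) / 4))
    · intro y hy hne i
      by_cases hi : i = ip
      · subst hi
        right
        by_contra hyi
        obtain ⟨y', rfl⟩ := peel hyi
        rw [hz, phi_add, phi_single, one_mul, hip] at hy
        by_cases hy' : y' i = 0
        · have hy'0 : y' ≠ 0 := by
            rintro rfl
            rw [phi_zero] at hy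
            omega
          obtain ⟨k, hk⟩ := exists_ne_zero hy'0
          obtain ⟨y'', rfl⟩ := peel hk
          have hki : k ≠ i := by
            rintro rfl
            exact hk hy'
          rw [phi_add, phi_single, one_mul] at hy
          have hs := hmem y''
          have hk2 : n k = 4 ∨ n k = p ∨ n k = q := by
            have : n k ∈ Set.range n := Set.mem_range_self k
            rw [hrange] at this
            exact this
          have hkp : n k ≠ p := by
            intro h
            exact hki (hinj (h.trans hip.symm))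
          rw [hS] at hs
          omega
        · obtain ⟨y'', rfl⟩ := peel hy'
          rw [phi_add, phi_single, one_mul, hip] at hy
          have := atom_fact hinj hr (j := i) (y := y'') (by omega)
          subst this
          apply hne
          rw [← Pi.single_add, ← Pi.single_add]
          norm_num
      · left
        simp [hi]
    · rw [hz, phi_add, phi_single, phi_single, hi4, hiq]
      omega
    · intro hcon
      have := congrFun hcon iq
      simp [n4q, npq, n4q.symm, npq.symm] at this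
  have hD : (({p + q, q + q, 3 * p} : Finset ℕ).card : ℕ∞) ≤ σ.encard := by
    apply card_le
    intro d hd
    rw [Finset.mem_insert, Finset.mem_insert, Finset.mem_singleton] at hd
    rcases hd with rfl | rfl | rfl
    · rw [hip, hiq] at d1
      exact d1
    · rw [hiq] at d2
      exact d2
    · exact d3
  have hDc : ({p + q, q + q, 3 * p} : Finset ℕ).card = 3 := by
    rw [Finset.card_insert_of_notMem (by simp; omega), Finset.card_pair (by omega)]
  rw [hDc] at hD
  have h5 : ((3 : ℕ) : ℕ∞) + 1 ≤ (e : ℕ∞) := by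
    rw [← hcard]
    gcongr
  have h6 : (4 : ℕ) ≤ e := by exact_mod_cast h5
  omega

/-- Multiplicity four, four generators, even Frobenius number. -/
theorem not_ci_four {a b c : ℕ} (ha : a % 4 = 1) (hb : b % 4 = 2) (hc : c % 4 = 3)
    (h1 : a < b) (h2 : c < b) (h3 : b < 2 * a) (h4 : b < 2 * c)
    (hS : ∀ x, x ∈ S ↔ x % 4 = 0 ∨ (x % 4 = 1 ∧ a ≤ x) ∨ (x % 4 = 2 ∧ b ≤ x) ∨
      (x % 4 = 3 ∧ c ≤ x)) : ¬ IsCI S := by
  rintro ⟨-, e, n, hinj, hr, σ, hσ, -, hcard⟩
  have hat : atoms S = {4, a, b, c} := by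
    ext x
    constructor
    · rintro ⟨hx, hx0, hx2⟩
      have h4 : 4 ∈ S := by rw [hS]; omega
      have step4 : x - 4 ∈ S → 4 ≤ x → x = 4 := by
        intro h h'
        have := hx2 4 h4 (x - 4) h (by omega)
        omega
      rw [hS] at hx
      rw [hS] at step4
      have : x = 4 ∨ x = a ∨ x = b ∨ x = c := by omega
      exact this
    · intro hx
      have hx' : x = 4 ∨ x = a ∨ x = b ∨ x = c := hx
      refine ⟨by rw [hS]; omega, by omega, ?_⟩
      intro y hy z hz hyz
      rw [hS] at hy hz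
      omega
  have hrange : Set.range n = {4, a, b, c} := by rw [hr, hat]
  obtain ⟨i4, hi4⟩ : ∃ i, n i = 4 := by
    have : (4 : ℕ) ∈ Set.range n := by rw [hrange]; simp
    exact this
  obtain ⟨ia, hia⟩ : ∃ i, n i = a := by
    have : a ∈ Set.range n := by rw [hrange]; simp
    exact this
  obtain ⟨ib, hib⟩ : ∃ i, n i = b := by
    have : b ∈ Set.range n := by rw [hrange]; simp
    exact this
  obtain ⟨ic, hic⟩ : ∃ i, n i = c := by
    have : c ∈ Set.range n := by rw [hrange]; simp
    exact this
  have n4a : i4 ≠ ia := by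
    rintro rfl
    omega
  have n4b : i4 ≠ ib := by
    rintro rfl
    omega
  have n4c : i4 ≠ ic := by
    rintro rfl
    omega
  have nab : ia ≠ ib := by
    rintro rfl
    omega
  have nac : ia ≠ ic := by
    rintro rfl
    omega
  have nbc : ib ≠ ic := by
    rintro rfl
    omega
  have he : e ≤ 4 := by
    have h := Finset.card_le_card (s := Finset.univ.image n) (t := {4, a, b, c}) (by
      intro x hx
      rw [Finset.mem_image] at hx
      obtain ⟨i, -, rfl⟩ := hx
      have : n i ∈ Set.range n := Set.mem_range_self i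
      rw [hrange] at this
      simpa using this)
    rw [Finset.card_image_of_injective _ hinj, Finset.card_univ, Fintype.card_fin] at h
    exact h.trans Finset.card_le_four
  have d1 := pair_deg hinj hr hσ ia ic (y0 := Pi.single i4 ((a + c) / 4))
    (by rw [phi_single, hi4, hia, hic]; omega)
    (by
      intro hcon
      have := congrFun hcon ia
      simp [n4a, nac, n4a.symm, nac.symm] at this)
  have d2 := pair_deg hinj hr hσ ib ib (y0 := Pi.single i4 (b / 2))
    (by rw [phi_single, hi4, hib]; omega)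
    (by
      intro hcon
      have := congrFun hcon ib
      simp [n4b.symm] at this)
  have d3 := pair_deg hinj hr hσ ia ib
    (y0 := Pi.single ic 1 + Pi.single i4 ((a + b - c) / 4))
    (by rw [phi_add, phi_single, phi_single, hi4, hia, hib, hic]; omega)
    (by
      intro hcon
      have := congrFun hcon ia
      simp [n4a, nac, n4a.symm, nac.symm, nab, nab.symm] at this)
  have d4 := pair_deg hinj hr hσ ib ic
    (y0 := Pi.single ia 1 + Pi.single i4 ((b + c - a) / 4))
    (by rw [phi_add, phi_single, phi_single, hi4, hia, hib, hic]; omega)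
    (by
      intro hcon
      have := congrFun hcon ic
      simp [n4c, nac, n4c.symm, nac.symm, nbc, nbc.symm] at this)
  have hD : (({a + c, b + b, a + b, b + c} : Finset ℕ).card : ℕ∞) ≤ σ.encard := by
    apply card_le
    intro d hd
    rw [Finset.mem_insert, Finset.mem_insert, Finset.mem_insert, Finset.mem_singleton] at hd
    rcases hd with rfl | rfl | rfl | rfl
    · rw [hia, hic] at d1
      exact d1
    · rw [hib] at d2
      exact d2
    · rw [hia, hib] at d3
      exact d3
    · rw [hib, hic] at d4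
      exact d4
  have hDc : ({a + c, b + b, a + b, b + c} : Finset ℕ).card = 4 := by
    rw [Finset.card_insert_of_notMem (by simp; omega),
      Finset.card_insert_of_notMem (by simp; omega), Finset.card_pair (by omega)]
  rw [hDc] at hD
  have h5 : ((4 : ℕ) : ℕ∞) + 1 ≤ (e : ℕ∞) := by
    rw [← hcard]
    gcongr
  have h6 : (5 : ℕ) ≤ e := by exact_mod_cast h5
  omega

end NotCI

section Main

/-- The family of complete intersections. -/
def CI : Set (AddSubmonoid ℕ) := {S | IsCI S}

theorem CI_num : ∀ S ∈ CI, IsNum S := fun _ hS => hS.1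

theorem exists_class {T : AddSubmonoid ℕ} (hT : IsNum T) (r : ℕ) (hr : r < 4) :
    ∃ x, x ∈ T ∧ x % 4 = r := by
  by_contra hc
  push Not at hc
  have : (Set.range fun k : ℕ => 4 * k + r) ⊆ {x : ℕ | x ∉ T} := by
    rintro _ ⟨k, rfl⟩ hx
    exact hc _ hx (by
      change (4 * k + r) % 4 = r
      omega)
  have hT' : {x : ℕ | x ∉ T}.Finite := hT
  have hfin := hT'.subset this
  refine Set.infinite_range_of_injective (fun a b hab => ?_) hfin
  have : 4 * a + r = 4 * b + r := hab
  omega

theorem apery {T : AddSubmonoid ℕ} (h4 : 4 ∈ T) (r : ℕ) (hex : ∃ x, x ∈ T ∧ x % 4 = r) :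
    ∃ m, m ∈ T ∧ m % 4 = r ∧ ∀ x, x % 4 = r → (x ∈ T ↔ m ≤ x) := by
  classical
  refine ⟨Nat.find hex, (Nat.find_spec hex).1, (Nat.find_spec hex).2, ?_⟩
  intro x hx
  constructor
  · intro h
    exact Nat.find_min' hex ⟨h, hx⟩
  · intro h
    have h1 := (Nat.find_spec hex).1
    have h2 := (Nat.find_spec hex).2
    obtain ⟨k, hk⟩ : ∃ k, x = Nat.find hex + 4 * k := ⟨(x - Nat.find hex) / 4, by omega⟩
    rw [hk]
    apply T.add_mem h1
    have := T.nsmul_mem h4 k
    simpa [mul_comm] using this

/-- Numerical semigroups that contain 4. -/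
theorem four_char {T : AddSubmonoid ℕ} (hT : IsNum T) (h4 : 4 ∈ T) :
    ∃ a b c : ℕ, a % 4 = 1 ∧ b % 4 = 2 ∧ c % 4 = 3 ∧
      (∀ x, x ∈ T ↔ x % 4 = 0 ∨ (x % 4 = 1 ∧ a ≤ x) ∨ (x % 4 = 2 ∧ b ≤ x) ∨
        (x % 4 = 3 ∧ c ≤ x)) ∧ b ≤ 2 * a ∧ b ≤ 2 * c ∧ a ≤ b + c ∧ c ≤ a + b ∧ a ≤ 3 * c ∧
        c ≤ 3 * a := by
  obtain ⟨a, haT, ha, ha2⟩ := apery h4 1 (exists_class hT 1 (by norm_num))
  obtain ⟨b, hbT, hb, hb2⟩ := apery h4 2 (exists_class hT 2 (by norm_num))
  obtain ⟨c, hcT, hc, hc2⟩ := apery h4 3 (exists_class hT 3 (by norm_num))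
  have h0 : ∀ x, x % 4 = 0 → x ∈ T := by
    intro x hx
    obtain ⟨k, rfl⟩ : ∃ k, x = k * 4 := ⟨x / 4, by omega⟩
    have := T.nsmul_mem h4 k
    simpa using this
  have hmem : ∀ x, x ∈ T ↔ x % 4 = 0 ∨ (x % 4 = 1 ∧ a ≤ x) ∨ (x % 4 = 2 ∧ b ≤ x) ∨
        (x % 4 = 3 ∧ c ≤ x) := by
    intro x
    have hx4 : x % 4 = 0 ∨ x % 4 = 1 ∨ x % 4 = 2 ∨ x % 4 = 3 := by omega
    rcases hx4 with h | h | h | h
    · simp [h, h0 x h]
    · simp [h, ha2 x h]
    · simp [h, hb2 x h]
    · simp [h, hc2 x h]
  have e1 := (hb2 _ (show (a + a) % 4 = 2 by omega)).1 (T.add_mem haT haT)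
  have e2 := (hb2 _ (show (c + c) % 4 = 2 by omega)).1 (T.add_mem hcT hcT)
  have e3 := (ha2 _ (show (b + c) % 4 = 1 by omega)).1 (T.add_mem hbT hcT)
  have e4 := (hc2 _ (show (a + b) % 4 = 3 by omega)).1 (T.add_mem haT hbT)
  have e5 := (ha2 _ (show (c + c + c) % 4 = 1 by omega)).1
    (T.add_mem (T.add_mem hcT hcT) hcT)
  have e6 := (hc2 _ (show (a + a + a) % 4 = 3 by omega)).1
    (T.add_mem (T.add_mem haT haT) haT)
  exact ⟨a, b, c, ha, hb, hc, hmem, by omega, by omega, e3, e4, by omega, by omega⟩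

theorem coprime_four {c : ℕ} (hc : c % 2 = 1) : Nat.Coprime 4 c := by
  have : Nat.Coprime (2 ^ 2) c := Nat.Coprime.pow_left 2 (Nat.coprime_two_left.2 (Nat.odd_iff.2 hc))
  simpa using this

theorem mem_closure_four {c x : ℕ} (h : x % 4 = 0 ∨ (x % 4 = c % 4 ∧ c ≤ x) ∨
    (x % 4 = (2 * c) % 4 ∧ 2 * c ≤ x)) : x ∈ AddSubmonoid.closure ({4, c} : Set ℕ) := by
  rw [mem_two]
  rcases h with h | h | h
  · exact ⟨x / 4, 0, by omega⟩
  · exact ⟨(x - c) / 4, 1, by omega⟩
  · exact ⟨(x - 2 * c) / 4, 2, by omega⟩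

theorem closure_four_le {T : AddSubmonoid ℕ} {c : ℕ} (h4 : 4 ∈ T) (hc : c ∈ T) :
    AddSubmonoid.closure ({4, c} : Set ℕ) ≤ T := by
  rw [AddSubmonoid.closure_le]
  rintro x (rfl | rfl)
  · exact h4
  · exact hc

theorem big_notMem {m N g : ℕ} (h1 : g < N) (h2 : ¬ m ∣ g) :
    g ∉ AddSubmonoid.closure ({m, N} : Set ℕ) := by
  rw [mem_two]
  rintro ⟨i, j, h⟩
  rcases Nat.eq_zero_or_pos j with hj | hj
  · subst hj
    exact h2 ⟨i, by rw [← h]; ring⟩
  · have : N ≤ j * N := Nat.le_mul_of_pos_left N hj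
    omega

/-- Odd gaps. -/
theorem odd_gap {T : AddSubmonoid ℕ} (h4 : 4 ∈ T) {p b q g : ℕ}
    (hpq : (p % 4 = 1 ∧ q % 4 = 3) ∨ (p % 4 = 3 ∧ q % 4 = 1)) (hb : b % 4 = 2)
    (hT : ∀ x, x ∈ T ↔ x % 4 = 0 ∨ (x % 4 = p % 4 ∧ p ≤ x) ∨ (x % 4 = 2 ∧ b ≤ x) ∨
        (x % 4 = q % 4 ∧ q ≤ x)) (e1 : p ≤ b + q) (e2 : p ≤ 3 * q) (hg : g % 4 = p % 4)
    (hgp : g < p) : ∃ S ∈ CI, (∀ x ∈ T, x < g → x ∈ S) ∧ g ∉ S := by
  have hgT : g ∉ T := by
    rw [hT]
    rcases hpq with h | h <;> omega
  have hqT : q ∈ T := by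
    rw [hT]
    rcases hpq with h | h <;> omega
  have hgo : g % 2 = 1 := by omega
  by_cases hbg : b < g
  · by_cases hb2 : b = 2
    · subst hb2
      refine ⟨_, ci_two (a := 2) (b := g + 2) (by omega) (by omega)
        (Nat.coprime_two_left.2 (Nat.odd_iff.2 (by omega))), ?_, ?_⟩
      · intro x hx hxg
        rw [hT] at hx
        rw [mem_two]
        refine ⟨x / 2, 0, ?_⟩
        rcases hpq with h | h <;> omega
      · apply big_notMem (by omega)
        omega
    · by_cases hqg : q < g
      · by_cases hw : g + 4 - q = 2 * q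
        · refine ⟨_, ci_two (a := 4) (b := q) (by omega) (by omega)
            (coprime_four (by omega)), ?_, ?_⟩
          · intro x hx hxg
            rw [hT] at hx
            apply mem_closure_four
            rcases hpq with h | h <;> omega
          · intro hcon
            exact hgT (closure_four_le h4 hqT hcon)
        · have hw4 : (g + 4 - q) % 4 = 2 := by omega
          have hwq : g + 4 - q < 2 * q := by omega
          refine ⟨_, ci_three hw4 (show q % 2 = 1 by omega) hwq (by omega), ?_, ?_⟩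
          · intro x hx hxg
            rw [hT] at hx
            rw [mem_S3]
            rcases hpq with h | h <;> omega
          · rw [mem_S3]
            omega
      · refine ⟨_, ci_three hb (show (g + 2) % 2 = 1 by omega) (by omega) (by omega), ?_, ?_⟩
        · intro x hx hxg
          rw [hT] at hx
          rw [mem_S3]
          rcases hpq with h | h <;> omega
        · rw [mem_S3]
          omega
  · by_cases hqg : q < g
    · refine ⟨_, ci_two (a := 4) (b := q) (by omega) (by omega)
        (coprime_four (by omega)), ?_, ?_⟩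
      · intro x hx hxg
        rw [hT] at hx
        apply mem_closure_four
        rcases hpq with h | h <;> omega
      · intro hcon
        exact hgT (closure_four_le h4 hqT hcon)
    · refine ⟨_, ci_two (a := 4) (b := g + 2) (by omega) (by omega)
        (coprime_four (by omega)), ?_, ?_⟩
      · intro x hx hxg
        rw [hT] at hx
        apply mem_closure_four
        rcases hpq with h | h <;> omega
      · apply big_notMem (by omega)
        omega

/-- Gaps congruent to 2 modulo 4, when one odd class is missing below the gap. -/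
theorem even_gap {T : AddSubmonoid ℕ} (h4 : 4 ∈ T) {p b q g : ℕ}
    (hpq : (p % 4 = 1 ∧ q % 4 = 3) ∨ (p % 4 = 3 ∧ q % 4 = 1)) (hb : b % 4 = 2)
    (hT : ∀ x, x ∈ T ↔ x % 4 = 0 ∨ (x % 4 = p % 4 ∧ p ≤ x) ∨ (x % 4 = 2 ∧ b ≤ x) ∨
        (x % 4 = q % 4 ∧ q ≤ x)) (e1 : b ≤ 2 * q) (hg : g % 4 = 2)
    (hgb : g < b) (hgp : g < p) : ∃ S ∈ CI, (∀ x ∈ T, x < g → x ∈ S) ∧ g ∉ S := by
  have hgT : g ∉ T := by
    rw [hT]
    rcases hpq with h | h <;> omega
  have hqT : q ∈ T := by
    rw [hT]
    rcases hpq with h | h <;> omega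
  by_cases hqg : q < g
  · refine ⟨_, ci_two (a := 4) (b := q) (by omega) (by omega)
      (coprime_four (by omega)), ?_, ?_⟩
    · intro x hx hxg
      rw [hT] at hx
      apply mem_closure_four
      rcases hpq with h | h <;> omega
    · intro hcon
      exact hgT (closure_four_le h4 hqT hcon)
  · refine ⟨_, ci_two (a := 4) (b := g + 1) (by omega) (by omega)
      (coprime_four (by omega)), ?_, ?_⟩
    · intro x hx hxg
      rw [hT] at hx
      apply mem_closure_four
      rcases hpq with h | h <;> omega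
    · apply big_notMem (by omega)
      omega

theorem four_iff {T : AddSubmonoid ℕ} (hT : IsNum T) (h4 : 4 ∈ T) :
    T ∈ Gen CI ↔ ∀ g, g ∉ T → g % 4 = 2 →
      ¬ ((∃ x ∈ T, x < g ∧ x % 4 = 1) ∧ (∃ x ∈ T, x < g ∧ x % 4 = 3)) := by
  rw [criterion CI_num]
  constructor
  · rintro ⟨-, h⟩ g hg hg4 ⟨⟨x, hxT, hxg, hx4⟩, ⟨y, hyT, hyg, hy4⟩⟩
    obtain ⟨S, hS, hST, hSg⟩ := h g hg
    have h4S : 4 ∈ S := hST 4 h4 (by omega)
    have hxS := hST x hxT hxg
    have hyS := hST y hyT hyg
    obtain ⟨a, b, c, ha, hb, hc, hmem, e1, e2, e3, e4, e5, e6⟩ := four_char hS.1 h4S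
    rw [hmem] at hSg hxS hyS
    have hax : a ≤ x := by omega
    have hcy : c ≤ y := by omega
    have hgb : g < b := by omega
    clear hSg hxS hyS
    have hab : a < b := by omega
    have hcb : c < b := by omega
    by_cases hb1 : b = 2 * a
    · apply not_ci_three (S := S) ha hc (by omega) (by omega) _ hS
      intro z
      rw [hmem, hb1]
    by_cases hb2 : b = 2 * c
    · apply not_ci_three' (S := S) hc ha (by omega) (by omega) _ hS
      intro z
      rw [hmem, hb2]
      tauto
    exact not_ci_four ha hb hc hab hcb (by omega) (by omega) hmem hS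
  · intro h
    refine ⟨hT, fun g hg => ?_⟩
    obtain ⟨a, b, c, ha, hb, hc, hmem, e1, e2, e3, e4, e5, e6⟩ := four_char hT h4
    have hmem' : ∀ x, x ∈ T ↔ x % 4 = 0 ∨ (x % 4 = a % 4 ∧ a ≤ x) ∨ (x % 4 = 2 ∧ b ≤ x) ∨
        (x % 4 = c % 4 ∧ c ≤ x) := by
      intro x
      rw [hmem, ha, hc]
    have hmem'' : ∀ x, x ∈ T ↔ x % 4 = 0 ∨ (x % 4 = c % 4 ∧ c ≤ x) ∨ (x % 4 = 2 ∧ b ≤ x) ∨
        (x % 4 = a % 4 ∧ a ≤ x) := by
      intro x
      rw [hmem']
      tauto
    have hg' := hg
    rw [hmem] at hg'
    have hg4 : g % 4 = 0 ∨ g % 4 = 1 ∨ g % 4 = 2 ∨ g % 4 = 3 := by omega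
    rcases hg4 with h0 | h0 | h0 | h0
    · omega
    · exact odd_gap h4 (Or.inl ⟨ha, hc⟩) hb hmem' (by omega) (by omega) (by omega) (by omega)
    · have h1 := h g hg h0
      by_cases hag : g < a
      · exact even_gap h4 (Or.inl ⟨ha, hc⟩) hb hmem' (by omega) h0 (by omega) hag
      · by_cases hcg : g < c
        · exact even_gap h4 (Or.inr ⟨hc, ha⟩) hb hmem'' (by omega) h0 (by omega) hcg
        · exfalso
          apply h1
          refine ⟨⟨a, ?_, by omega, ha⟩, ⟨c, ?_, by omega, hc⟩⟩
          · rw [hmem]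
            omega
          · rw [hmem]
            omega
    · exact odd_gap h4 (Or.inr ⟨hc, ha⟩) hb hmem'' (by omega) (by omega) (by omega) (by omega)

theorem two_mem {T : AddSubmonoid ℕ} (hT : IsNum T) (h2 : 2 ∈ T) : T ∈ Gen CI := by
  rw [criterion CI_num]
  refine ⟨hT, fun g hg => ?_⟩
  have hk : ∀ k, 2 * k ∈ T := by
    intro k
    have := T.nsmul_mem h2 k
    simpa [mul_comm] using this
  have hgo : g % 2 = 1 := by
    by_contra hc
    apply hg
    have := hk (g / 2)
    rwa [show 2 * (g / 2) = g by omega] at this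
  refine ⟨_, ci_two (a := 2) (b := g + 2) (by omega) (by omega)
    (Nat.coprime_two_left.2 (Nat.odd_iff.2 (by omega))), ?_, ?_⟩
  · intro x hx hxg
    rw [mem_two]
    refine ⟨x / 2, 0, ?_⟩
    by_contra hc
    apply hg
    have := T.add_mem hx (hk ((g - x) / 2))
    rwa [show x + 2 * ((g - x) / 2) = g by omega] at this
  · apply big_notMem (by omega)
    omega

theorem three_mem {T : AddSubmonoid ℕ} (hT : IsNum T) (h3 : 3 ∈ T) : T ∈ Gen CI := by
  classical
  rw [criterion CI_num]
  refine ⟨hT, fun g hg => ?_⟩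
  have hk : ∀ k, 3 * k ∈ T := by
    intro k
    have := T.nsmul_mem h3 k
    simpa [mul_comm] using this
  have hg3 : g % 3 ≠ 0 := by
    intro hc
    apply hg
    have := hk (g / 3)
    rwa [show 3 * (g / 3) = g by omega] at this
  have hsame : ∀ x ∈ T, x < g → x % 3 ≠ g % 3 := by
    intro x hx hxg hc
    apply hg
    have := T.add_mem hx (hk ((g - x) / 3))
    rwa [show x + 3 * ((g - x) / 3) = g by omega] at this
  by_cases hex : ∃ x, x ∈ T ∧ x < g ∧ (x + g) % 3 = 0
  · obtain ⟨h1, h2, h4⟩ := Nat.find_spec hex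
    have hmin := fun x hx => Nat.find_min' hex (m := x) hx
    generalize Nat.find hex = b at h1 h2 h4 hmin
    have hb2 : 2 ≤ b := by
      by_contra hc
      have hb1 : b = 1 := by omega
      subst hb1
      apply hg
      have := T.nsmul_mem h1 g
      simpa using this
    refine ⟨_, ci_two (a := 3) (b := b) (by omega) hb2
      ((Nat.Prime.coprime_iff_not_dvd Nat.prime_three).2 (by omega)), ?_, ?_⟩
    · intro x hx hxg
      rw [mem_two]
      have := hsame x hx hxg
      by_cases hx3 : x % 3 = 0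
      · exact ⟨x / 3, 0, by omega⟩
      · have hx12 : x % 3 = 1 ∨ x % 3 = 2 := by omega
        have hg12 : g % 3 = 1 ∨ g % 3 = 2 := by omega
        have h6 : (x + g) % 3 = 0 := by
          rcases hx12 with h | h <;> rcases hg12 with h' | h' <;> omega
        have h5 := hmin x ⟨hx, hxg, h6⟩
        have h7 : x % 3 = b % 3 := by
          rcases hx12 with h | h <;> rcases hg12 with h' | h' <;> omega
        exact ⟨(x - b) / 3, 1, by omega⟩
    · intro hcon
      apply hg
      have hle : AddSubmonoid.closure ({3, b} : Set ℕ) ≤ T := by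
        rw [AddSubmonoid.closure_le]
        rintro x (rfl | rfl)
        · exact h3
        · exact h1
      exact hle hcon
  · push Not at hex
    refine ⟨_, ci_two (a := 3) (b := g + 3) (by omega) (by omega)
      ((Nat.Prime.coprime_iff_not_dvd Nat.prime_three).2 (by omega)), ?_, ?_⟩
    · intro x hx hxg
      rw [mem_two]
      have h5 := hsame x hx hxg
      have h6 := hex x hx hxg
      have h7 : x % 3 = 0 := by
        by_contra h8
        have hx12 : x % 3 = 1 ∨ x % 3 = 2 := by omega
        have hg12 : g % 3 = 1 ∨ g % 3 = 2 := by omega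
        rcases hx12 with h | h <;> rcases hg12 with h' | h' <;> omega
      exact ⟨x / 3, 0, by omega⟩
    · apply big_notMem (by omega)
      omega

end Main

section Symmetric

/-- Symmetric numerical semigroups. -/
def IsSymm (T : AddSubmonoid ℕ) : Prop :=
  IsNum T ∧ T ≠ ⊤ ∧ ∀ x, x ∉ T → frob T - x ∈ T

/-- The semigroup `{0, m, m + 1, …, 2 m - 2, 2 m, →}`. -/
def TM (m : ℕ) : AddSubmonoid ℕ where
  carrier := {x | x = 0 ∨ (m ≤ x ∧ x + 2 ≤ 2 * m) ∨ 2 * m ≤ x}
  zero_mem' := Or.inl rfl
  add_mem' := by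
    intro a b ha hb
    rw [Set.mem_ofPred_eq] at *
    omega

theorem mem_TM {m x : ℕ} : x ∈ TM m ↔ x = 0 ∨ (m ≤ x ∧ x + 2 ≤ 2 * m) ∨ 2 * m ≤ x := Iff.rfl

theorem TM_num (m : ℕ) : IsNum (TM m) := by
  apply (Set.finite_Iic (2 * m)).subset
  intro x hx
  by_contra hx2
  rw [Set.mem_Iic, not_le] at hx2
  apply hx
  rw [mem_TM]
  omega

theorem TM_frob {m : ℕ} (hm : 5 ≤ m) : frob (TM m) = 2 * m - 1 := by
  apply frob_eq
  · rw [mem_TM]
    omega
  · intro x hx
    rw [mem_TM]
    omega

theorem TM_ne_top {m : ℕ} (hm : 5 ≤ m) : TM m ≠ ⊤ := by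
  intro h
  have : (2 * m - 1 : ℕ) ∈ TM m := by
    rw [h]
    exact AddSubmonoid.mem_top _
  rw [mem_TM] at this
  omega

theorem TM_symm {m : ℕ} (hm : 5 ≤ m) : IsSymm (TM m) := by
  refine ⟨TM_num m, TM_ne_top hm, fun x hx => ?_⟩
  rw [TM_frob hm, mem_TM]
  rw [mem_TM] at hx
  omega

theorem TM_atoms {m : ℕ} (hm : 5 ≤ m) : atoms (TM m) = Set.Icc m (2 * m - 2) := by
  ext x
  constructor
  · rintro ⟨hx, hx0, hx2⟩
    have step5 : x - m ∈ TM m → m ≤ x → x = m := by
      intro h h'
      have := hx2 m (by rw [mem_TM]; omega) (x - m) h (by omega)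
      omega
    have step6 : x - (m + 1) ∈ TM m → m + 1 ≤ x → x = m + 1 := by
      intro h h'
      have := hx2 (m + 1) (by rw [mem_TM]; omega) (x - (m + 1)) h (by omega)
      omega
    rw [mem_TM] at hx step5 step6
    rw [Set.mem_Icc]
    omega
  · intro hx
    rw [Set.mem_Icc] at hx
    refine ⟨by rw [mem_TM]; omega, by omega, ?_⟩
    intro y hy z hz hyz
    rw [mem_TM] at hy hz
    omega

theorem TM_not_ci {m : ℕ} (hm : 5 ≤ m) : ¬ IsCI (TM m) := by
  rintro ⟨-, e, n, hinj, hr, σ, hσ, -, hcard⟩
  have hrange : Set.range n = Set.Icc m (2 * m - 2) := by rw [hr, TM_atoms hm]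
  have hex : ∀ v, m ≤ v → v ≤ 2 * m - 2 → ∃ i, n i = v := by
    intro v h1 h2
    have : v ∈ Set.range n := by rw [hrange]; exact ⟨h1, h2⟩
    exact this
  have he : e ≤ m - 1 := by
    have h := Finset.card_le_card (s := Finset.univ.image n) (t := Finset.Icc m (2 * m - 2)) (by
      intro x hx
      rw [Finset.mem_image] at hx
      obtain ⟨i, -, rfl⟩ := hx
      have : n i ∈ Set.range n := Set.mem_range_self i
      rw [hrange] at this
      rw [Finset.mem_Icc]
      exact this)
    rw [Finset.card_image_of_injective _ hinj, Finset.card_univ, Fintype.card_fin,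
      Nat.card_Icc] at h
    omega
  have hD : ((Finset.Icc (2 * m + 2) (4 * m - 4)).card : ℕ∞) ≤ σ.encard := by
    apply card_le
    intro d hd
    rw [Finset.mem_Icc] at hd
    by_cases h1 : d ≤ 3 * m - 2
    · obtain ⟨i1, hi1⟩ := hex m (by omega) (by omega)
      obtain ⟨i2, hi2⟩ := hex (d - m) (by omega) (by omega)
      obtain ⟨i3, hi3⟩ := hex (m + 1) (by omega) (by omega)
      obtain ⟨i4, hi4⟩ := hex (d - m - 1) (by omega) (by omega)
      have n13 : i1 ≠ i3 := by
        rintro rfl
        omega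
      have n14 : i1 ≠ i4 := by
        rintro rfl
        omega
      have := pair_deg hinj hr hσ i1 i2 (y0 := Pi.single i3 1 + Pi.single i4 1)
        (by rw [phi_add, phi_single, phi_single, hi1, hi2, hi3, hi4]; omega)
        (by
          intro hcon
          have := congrFun hcon i1
          simp [n13, n14] at this
          omega)
      rw [hi1, hi2] at this
      rwa [show m + (d - m) = d by omega] at this
    by_cases h2 : d = 3 * m - 1
    · obtain ⟨i1, hi1⟩ := hex (m + 1) (by omega) (by omega)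
      obtain ⟨i2, hi2⟩ := hex (2 * m - 2) (by omega) (by omega)
      obtain ⟨i3, hi3⟩ := hex (m + 2) (by omega) (by omega)
      obtain ⟨i4, hi4⟩ := hex (2 * m - 3) (by omega) (by omega)
      have n13 : i1 ≠ i3 := by
        rintro rfl
        omega
      have n14 : i1 ≠ i4 := by
        rintro rfl
        omega
      have := pair_deg hinj hr hσ i1 i2 (y0 := Pi.single i3 1 + Pi.single i4 1)
        (by rw [phi_add, phi_single, phi_single, hi1, hi2, hi3, hi4]; omega)
        (by
          intro hcon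
          have := congrFun hcon i1
          simp [n13, n14] at this
          omega)
      rw [hi1, hi2] at this
      rwa [show m + 1 + (2 * m - 2) = d by omega] at this
    · obtain ⟨i1, hi1⟩ := hex (2 * m - 2) (by omega) (by omega)
      obtain ⟨i2, hi2⟩ := hex (d - 2 * m + 2) (by omega) (by omega)
      obtain ⟨i3, hi3⟩ := hex m (by omega) (by omega)
      obtain ⟨i4, hi4⟩ := hex (d - 2 * m) (by omega) (by omega)
      have n13 : i3 ≠ i1 := by
        rintro rfl
        omega
      have n23 : i3 ≠ i2 := by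
        rintro rfl
        omega
      have := pair_deg hinj hr hσ i1 i2 (y0 := Pi.single i3 2 + Pi.single i4 1)
        (by rw [phi_add, phi_single, phi_single, hi1, hi2, hi3, hi4]; omega)
        (by
          intro hcon
          have := congrFun hcon i3
          simp [n13, n23] at this)
      rw [hi1, hi2] at this
      rwa [show 2 * m - 2 + (d - 2 * m + 2) = d by omega] at this
  rw [Nat.card_Icc] at hD
  have h5 : ((4 * m - 4 + 1 - (2 * m + 2) : ℕ) : ℕ∞) + 1 ≤ (e : ℕ∞) := by
    rw [← hcard]
    gcongr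
  have h6 : (4 * m - 4 + 1 - (2 * m + 2)) + 1 ≤ e := by exact_mod_cast h5
  omega

end Symmetric

/-- The least Frobenius variety that contains all complete intersections. -/
theorem result :
    -- `Gen CI` is the least Frobenius variety that contains all complete intersections
    (IsVar (Gen CI) ∧ CI ⊆ Gen CI ∧ ∀ V, IsVar V → CI ⊆ V → Gen CI ⊆ V) ∧
    -- numerical semigroups of multiplicity at most 3
    (∀ T : AddSubmonoid ℕ, IsNum T → (1 ∈ T ∨ 2 ∈ T ∨ 3 ∈ T) → T ∈ Gen CI) ∧
    -- numerical semigroups that contain 4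
    (∀ T : AddSubmonoid ℕ, IsNum T → 4 ∈ T → (T ∈ Gen CI ↔ ∀ g, g ∉ T → g % 4 = 2 →
      ¬ ((∃ x ∈ T, x < g ∧ x % 4 = 1) ∧ (∃ x ∈ T, x < g ∧ x % 4 = 3)))) ∧
    -- irreducible semigroups with all minimal generators below the Frobenius number
    (∀ T : AddSubmonoid ℕ, IsNum T → T ≠ ⊤ →
      (∀ x, x ∉ T → frob T - x ∈ T ∨ 2 * x = frob T) → (∀ a ∈ atoms T, a < frob T) →
      (T ∈ Gen CI ↔ IsCI T)) ∧
    -- criterion
    (∀ T : AddSubmonoid ℕ, T ∈ Gen CI ↔
      IsNum T ∧ ∀ g, g ∉ T → ∃ S, IsCI S ∧ (∀ x ∈ T, x < g → x ∈ S) ∧ g ∉ S) ∧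
    -- symmetric semigroups of every multiplicity `m ≥ 5` outside
    (∀ m, 5 ≤ m → IsSymm (TM m) ∧ TM m ∉ Gen CI) := by
  refine ⟨⟨?_, ?_, fun V hV hCV T hT => hT V hV hCV⟩, ?_, fun T hT h4 => four_iff hT h4,
    fun T hT htop h1 h2 => irreducible_mem CI_num hT htop h1 h2, ?_,
    fun m hm => ⟨TM_symm hm, ?_⟩⟩
  · rw [criterion CI_num]
    exact crit_isVar CI
  · rw [criterion CI_num]
    exact subset_crit CI_num
  · rintro T hT (h | h | h)
    · exact two_mem hT (T.add_mem h h)
    · exact two_mem hT h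
    · exact three_mem hT h
  · intro T
    rw [criterion CI_num]
    rfl
  · rw [irreducible_mem CI_num (TM_num m) (TM_ne_top hm)]
    · exact TM_not_ci hm
    · intro x hx
      exact Or.inl ((TM_symm hm).2.2 x hx)
    · intro a ha
      rw [TM_atoms hm, Set.mem_Icc] at ha
      rw [TM_frob hm]
      omega

end Pool.Agent.Results.MP_71c87b_al.Variety
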